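import Pool.Agent.H56.ROF.Rof
import Pool.Agent.H12.LPK.Cel
import Pool.Agent.H16.LV.Box

/-!
# The slow row from the fulness of the fast coordinate

`U` slow (`n` digits), `Z` fast (`X` digits). If the block of `Z` is nonfull given the digits of `U`
above it, and full given the digits of `U` below it, then the block of `U` is nonfull given the
digits of `Z`: `slow_of_full` (one block), `nu_of_full` (12's literal `Nu`).
-/

set_option autoImplicit false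

namespace Pool.ROF

open Finset Real
open Pool.Agent.H49.Ent Pool.Agent.H32.Dense Pool.STK Pool.POT Pool.LPX Pool.LV16 Pool.LPK12
open Pool.K2S (Pe)

variable {Ω σ : Type} [Fintype Ω] {q : Ω → ℝ}

theorem tp_ediv {X a b : ℕ} (hab : a ≤ b) (hb : b ≤ X) (z : ℤ) :
    tp X a z = tp X b z / 2 ^ (b - a) := by
  unfold tp
  rw [Int.ediv_ediv_of_nonneg (by positivity), ← pow_add]
  congr 2
  omega

omit [Fintype Ω] in
theorem tp_det {X a b : ℕ} (hab : a ≤ b) (hb : b ≤ X) (q : Ω → ℝ) (V : Ω → ℤ) :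
    Det q (fun ω => tp X b (V ω)) (fun ω => tp X a (V ω)) := by
  intro ω ω' _ _ h
  have h1 : tp X b (V ω) = tp X b (V ω') := h
  show tp X a (V ω) = tp X a (V ω')
  rw [tp_ediv hab hb, tp_ediv hab hb, h1]

/-- **One block of the slow coordinate.** -/
theorem slow_of_full (hq : IsLaw q) (U Z : Ω → ℤ) (S : Ω → σ) {X n i m k k₀ k₁ : ℕ} (him : i ≤ m)
    (hmn : m ≤ n) (h01 : k₀ ≤ k₁) (h1k : k₁ ≤ k) (hkX : k ≤ X) {N F : ℝ}
    (nf : CH q (fun ω => tp X k₁ (Z ω)) (fun ω => (tp X k₀ (Z ω), (tp n m (U ω), S ω))) ≤ N)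
    (fl : F ≤ CH q (fun ω => tp X k₁ (Z ω)) (fun ω => (tp X k₀ (Z ω), (tp n i (U ω), S ω)))) :
    CH q (fun ω => tp n m (U ω)) (fun ω => (tp n i (U ω), (tp X k (Z ω), S ω))) ≤
      ((m : ℝ) - i) * Real.log 2 + (N - F) := by
  have h0 := hq.nonneg
  have hk1X : k₁ ≤ X := h1k.trans hkX
  -- only the digits of `Z` to `k₁`
  have e1 : CH q (fun ω => tp n m (U ω)) (fun ω => (tp n i (U ω), (tp X k (Z ω), S ω))) ≤
      CH q (fun ω => tp n m (U ω)) (fun ω => (tp X k₁ (Z ω), (tp n i (U ω), S ω))) := by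
    refine CH_mono_cond h0 ?_
    intro ω ω' a b h
    simp only [Prod.mk.injEq] at h ⊢
    exact ⟨tp_det h1k hkX q Z ω ω' a b h.2.1, h.1, h.2.2⟩
  -- the pair in two ways
  have e2 := CH_chain h0 (fun ω => tp n m (U ω)) (fun ω => tp X k₁ (Z ω))
    (fun ω => (tp n i (U ω), S ω))
  have e3 := CH_chain h0 (fun ω => tp X k₁ (Z ω)) (fun ω => tp n m (U ω))
    (fun ω => (tp n i (U ω), S ω))
  have e4 : CH q (fun ω => (tp n m (U ω), tp X k₁ (Z ω))) (fun ω => (tp n i (U ω), S ω)) =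
      CH q (fun ω => (tp X k₁ (Z ω), tp n m (U ω))) (fun ω => (tp n i (U ω), S ω)) := by
    refine CH_congr h0 ?_ ?_ (fun _ _ _ _ h => h) (fun _ _ _ _ h => h) <;>
    · intro ω ω' _ _ h
      simp only [Prod.mk.injEq] at h ⊢
      tauto
  have e5 : CH q (fun ω => tp n m (U ω)) (fun ω => (tp n i (U ω), S ω)) ≤
      ((m : ℝ) - i) * Real.log 2 := by
    refine CH_tp hq U _ him hmn ?_
    intro ω ω' _ _ h
    simp only [Prod.mk.injEq] at h ⊢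
    exact h.1
  -- the block of `Z` given the long `U`
  have e6 := CH_chain h0 (fun ω => tp X k₁ (Z ω)) (fun ω => tp X k₀ (Z ω))
    (fun ω => (tp n m (U ω), (tp n i (U ω), S ω)))
  have e6' : CH q (fun ω => (tp X k₁ (Z ω), tp X k₀ (Z ω)))
      (fun ω => (tp n m (U ω), (tp n i (U ω), S ω))) =
      CH q (fun ω => tp X k₁ (Z ω)) (fun ω => (tp n m (U ω), (tp n i (U ω), S ω))) := by
    refine CH_congr h0 ?_ ?_ (fun _ _ _ _ h => h) (fun _ _ _ _ h => h)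
    · intro ω ω' _ _ h
      simp only [Prod.mk.injEq] at h ⊢
      exact h.1.1
    · intro ω ω' a b h
      simp only [Prod.mk.injEq] at h ⊢
      exact ⟨h.1, tp_det h01 hk1X q Z ω ω' a b h.1⟩
  have e7 := CH_chain h0 (fun ω => tp X k₁ (Z ω)) (fun ω => tp X k₀ (Z ω))
    (fun ω => (tp n i (U ω), S ω))
  have e7' : CH q (fun ω => (tp X k₁ (Z ω), tp X k₀ (Z ω))) (fun ω => (tp n i (U ω), S ω)) =
      CH q (fun ω => tp X k₁ (Z ω)) (fun ω => (tp n i (U ω), S ω)) := by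
    refine CH_congr h0 ?_ ?_ (fun _ _ _ _ h => h) (fun _ _ _ _ h => h)
    · intro ω ω' _ _ h
      simp only [Prod.mk.injEq] at h ⊢
      exact h.1.1
    · intro ω ω' a b h
      simp only [Prod.mk.injEq] at h ⊢
      exact ⟨h.1, tp_det h01 hk1X q Z ω ω' a b h.1⟩
  have e8 : CH q (fun ω => tp X k₀ (Z ω)) (fun ω => (tp n m (U ω), (tp n i (U ω), S ω))) ≤
      CH q (fun ω => tp X k₀ (Z ω)) (fun ω => (tp n i (U ω), S ω)) := by
    refine CH_mono_cond h0 ?_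
    intro ω ω' _ _ h
    simp only [Prod.mk.injEq] at h ⊢
    exact h.2
  have e9 : CH q (fun ω => tp X k₁ (Z ω))
      (fun ω => (tp X k₀ (Z ω), (tp n m (U ω), (tp n i (U ω), S ω)))) ≤
      CH q (fun ω => tp X k₁ (Z ω)) (fun ω => (tp X k₀ (Z ω), (tp n m (U ω), S ω))) := by
    refine CH_mono_cond h0 ?_
    intro ω ω' _ _ h
    simp only [Prod.mk.injEq] at h ⊢
    exact ⟨h.1, h.2.1, h.2.2.2⟩
  rw [e6'] at e6
  rw [e7'] at e7
  linarith

/-- The rows of the fast coordinate at all depths, the slow one given to the matching depth. -/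
def NzA (p : Ω → ℝ) (U Z : Ω → ℤ) (S : Ω → σ) (X n : ℕ) (θ h ϖ d : ℝ) : Prop :=
  ∀ j k m : ℕ, j ≤ k → k ≤ X → m ≤ n → θ * (k : ℝ) ≤ m + 1 → ∀ G : Ω → Prop, ϖ ≤ Pe p G →
    CH (cond p G True) (fun ω => tp X k (Z ω)) (fun ω => (tp X j (Z ω), (tp n m (U ω), S ω))) ≤
      (1 - h) * ((k : ℝ) - j) * Real.log 2 + d

/-- The fast coordinate is full over the digits of the slow one above the block. -/
def FzA (p : Ω → ℝ) (U Z : Ω → ℤ) (S : Ω → σ) (X n : ℕ) (θ ε ϖ d : ℝ) : Prop :=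
  ∀ j k i : ℕ, j ≤ k → k ≤ X → i ≤ n → (i : ℝ) ≤ θ * j → ∀ G : Ω → Prop, ϖ ≤ Pe p G →
    (1 - 2 * ε) * ((k : ℝ) - j) * Real.log 2 - d ≤
      CH (cond p G True) (fun ω => tp X k (Z ω)) (fun ω => (tp X j (Z ω), (tp n i (U ω), S ω)))

/-- **The slow rows (12's `Nu`) from `NzA` and `FzA`.** -/
theorem nu_of_full {p : Ω → ℝ} (hp : IsLaw p) (U Z : Ω → ℤ) (S : Ω → σ) {X n : ℕ}
    {θ h ε ϖ d d' : ℝ} (hθ0 : 0 < θ) (hθ1 : θ < 1) (hn : θ * X ≤ n) (hϖ : 0 < ϖ)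
    (hhε : 2 * ε ≤ h) (hh1 : h ≤ 1) (hε : 0 ≤ ε)
    (nz : NzA p U Z S X n θ h ϖ d) (fz : FzA p U Z S X n θ ε ϖ d') :
    Nu p U Z S X n θ (h - 2 * ε) ϖ (d + d' + 1) := by
  intro i k m him hkX hmk G hG
  have hG0 : 0 < Pe p G := lt_of_lt_of_le hϖ hG
  have hq : IsLaw (cond p G True) := Pool.K2S.isLaw_cond hp hG0
  have hl2 : 0 < Real.log 2 := Real.log_pos (by norm_num)
  have hl2' : Real.log 2 < 1 := by
    have := Real.log_two_lt_d9
    linarith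
  have hmn : m ≤ n := by
    have h1 : θ * k ≤ θ * X := mul_le_mul_of_nonneg_left (by exact_mod_cast hkX) hθ0.le
    have h2 : (m : ℝ) ≤ n := by linarith
    exact_mod_cast h2
  have hkm : (m : ℝ) / θ ≤ k := by
    rw [div_le_iff₀ hθ0]
    linarith
  obtain ⟨k₀, hk₀⟩ : ∃ k₀ : ℕ, k₀ = ⌈(i : ℝ) / θ⌉₊ := ⟨_, rfl⟩
  obtain ⟨k₁, hk₁⟩ : ∃ k₁ : ℕ, k₁ = ⌈(m : ℝ) / θ⌉₊ := ⟨_, rfl⟩
  have hi0 : (0 : ℝ) ≤ (i : ℝ) / θ := by positivity
  have hm0 : (0 : ℝ) ≤ (m : ℝ) / θ := by positivity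
  have him' : (i : ℝ) ≤ m := by exact_mod_cast him
  have a0 : (i : ℝ) / θ ≤ k₀ := by rw [hk₀]; exact Nat.le_ceil _
  have a0' : (k₀ : ℝ) < (i : ℝ) / θ + 1 := by rw [hk₀]; exact Nat.ceil_lt_add_one hi0
  have a1 : (m : ℝ) / θ ≤ k₁ := by rw [hk₁]; exact Nat.le_ceil _
  have a1' : (k₁ : ℝ) < (m : ℝ) / θ + 1 := by rw [hk₁]; exact Nat.ceil_lt_add_one hm0
  have h01 : k₀ ≤ k₁ := by
    rw [hk₀, hk₁]
    exact Nat.ceil_mono (div_le_div_of_nonneg_right him' hθ0.le)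
  have h1k : k₁ ≤ k := by
    rw [hk₁, Nat.ceil_le]
    exact hkm
  have b1 := nz k₀ k₁ m h01 (h1k.trans hkX) hmn (by
    have : θ * (k₁ : ℝ) ≤ θ * ((m : ℝ) / θ + 1) := mul_le_mul_of_nonneg_left a1'.le hθ0.le
    have e : θ * ((m : ℝ) / θ + 1) = m + θ := by field_simp
    linarith) G hG
  have b2 := fz k₀ k₁ i h01 (h1k.trans hkX) (him.trans hmn) (by
    have : θ * ((i : ℝ) / θ) ≤ θ * k₀ := mul_le_mul_of_nonneg_left a0 hθ0.le
    have e : θ * ((i : ℝ) / θ) = i := by field_simp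
    linarith) G hG
  have b3 := slow_of_full hq U Z S him hmn h01 h1k hkX b1 b2
  refine b3.trans ?_
  -- numbers
  have c1 : (m : ℝ) - i - 1 ≤ (k₁ : ℝ) - k₀ := by
    have e1 : ((m : ℝ) - i) ≤ (m : ℝ) / θ - (i : ℝ) / θ := by
      rw [← sub_div, le_div_iff₀ hθ0]
      nlinarith
    linarith
  have c2 : 0 ≤ h - 2 * ε := by linarith
  have c3 : (h - 2 * ε) * ((m : ℝ) - i - 1) ≤ (h - 2 * ε) * ((k₁ : ℝ) - k₀) :=
    mul_le_mul_of_nonneg_left c1 c2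
  have c4 : (h - 2 * ε) * ((m : ℝ) - i - 1) * Real.log 2 ≤
      (h - 2 * ε) * ((k₁ : ℝ) - k₀) * Real.log 2 := mul_le_mul_of_nonneg_right c3 hl2.le
  have c5 : (h - 2 * ε) * Real.log 2 ≤ 1 := by nlinarith
  nlinarith

end Pool.ROF
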