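import Mathlib

/-!
# Quantitative differentiation of a superadditive interval function

`quant_add`: a superadditive function of the intervals of `[0, L ^ n]`, nonnegative and at most
`C L ^ n` in total, is additive up to `C / n` times the length on the grid of some interval of length
`L ^ (m + 1)` with `L` parts.
-/

set_option autoImplicit false

namespace Pool.ROF

open Finset

variable {F : ℕ → ℕ → ℝ} {N : ℕ} {δ : ℝ}

/-- The sum over a chain of consecutive intervals is at most the value of the whole interval. -/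
theorem sup_sum (h0 : ∀ i j, i ≤ j → j ≤ N → 0 ≤ F i j)
    (sup : ∀ i j k, i ≤ j → j ≤ k → k ≤ N → F i j + F j k ≤ F i k + δ) (a u i : ℕ) :
    ∀ j : ℕ, i ≤ j → a + j * u ≤ N →
      ∑ l ∈ Ico i j, F (a + l * u) (a + (l + 1) * u) ≤
        F (a + i * u) (a + j * u) + ((j : ℝ) - i) * δ := by
  intro j hj
  induction j, hj using Nat.le_induction with
  | base =>
    intro h
    rw [Ico_self, sum_empty, sub_self, zero_mul, add_zero]
    exact h0 _ _ le_rfl h
  | succ j hj ih =>
    intro h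
    rw [sum_Ico_succ_top hj]
    have e1 : a + j * u ≤ a + (j + 1) * u := by nlinarith
    have e2 : a + i * u ≤ a + j * u := by
      have := Nat.mul_le_mul_right u hj
      omega
    have h1 := ih (e1.trans h)
    have h2 := sup (a + i * u) (a + j * u) (a + (j + 1) * u) e2 e1 h
    push_cast
    linarith

/-- A bad interval has a child of smaller density. -/
theorem bad_child (h0 : ∀ i j, i ≤ j → j ≤ N → 0 ≤ F i j)
    (sup : ∀ i j k, i ≤ j → j ≤ k → k ≤ N → F i j + F j k ≤ F i k + δ) {L a u : ℕ} (hL : 1 ≤ L)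
    (hN : a + L * u ≤ N) {D : ℝ} {i j k : ℕ} (hij : i ≤ j) (hjk : j ≤ k) (hk : k ≤ L)
    (hbad : F (a + i * u) (a + j * u) + F (a + j * u) (a + k * u) + (D + (L + 2) * δ) <
      F (a + i * u) (a + k * u)) :
    ∃ l < L, (L : ℝ) * F (a + l * u) (a + (l + 1) * u) < F a (a + L * u) - D := by
  have hm : ∀ {x y : ℕ}, x ≤ y → x * u ≤ y * u := fun h => Nat.mul_le_mul_right u h
  have b1 : a + k * u ≤ N := by have := hm hk; omega
  have b2 : a + j * u ≤ N := by have := hm hjk; omega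
  have b3 : a + i * u ≤ N := by have := hm hij; omega
  have s1 := sup_sum h0 sup a u 0 i (Nat.zero_le _) b3
  have s2 := sup_sum h0 sup a u i j hij b2
  have s3 := sup_sum h0 sup a u j k hjk b1
  have s4 := sup_sum h0 sup a u k L hk hN
  have t1 := sup (a + 0 * u) (a + i * u) (a + k * u) (by omega)
    (by have := hm (hij.trans hjk); omega) b1
  have t2 := sup (a + 0 * u) (a + k * u) (a + L * u) (by omega) (by have := hm hk; omega) hN
  have e1 := sum_Ico_consecutive (fun l => F (a + l * u) (a + (l + 1) * u)) (Nat.zero_le i)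
    (hij.trans (hjk.trans hk))
  have e2 := sum_Ico_consecutive (fun l => F (a + l * u) (a + (l + 1) * u)) hij (hjk.trans hk)
  have e3 := sum_Ico_consecutive (fun l => F (a + l * u) (a + (l + 1) * u)) hjk hk
  have hs : ∑ l ∈ Ico 0 L, F (a + l * u) (a + (l + 1) * u) < F a (a + L * u) - D := by
    have e0 : a + 0 * u = a := by omega
    rw [e0] at s1 t1 t2
    push_cast at s1 s2 s3 s4
    linarith
  by_contra hcon
  push Not at hcon
  have h1 : ∑ _l ∈ Ico 0 L, (F a (a + L * u) - D) / L ≤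
      ∑ l ∈ Ico 0 L, F (a + l * u) (a + (l + 1) * u) := by
    refine sum_le_sum fun l hl => ?_
    rw [mem_Ico] at hl
    have h2 := hcon l hl.2
    have hL0 : (0 : ℝ) < L := by exact_mod_cast hL
    rw [div_le_iff₀ hL0]
    linarith
  rw [sum_const, Nat.card_Ico, Nat.sub_zero, nsmul_eq_mul] at h1
  have hL0 : (0 : ℝ) < L := by exact_mod_cast hL
  have h3 : (L : ℝ) * ((F a (a + L * u) - D) / L) = F a (a + L * u) - D := by field_simp
  linarith

/-- **Quantitative differentiation**, superadditive up to `δ`. -/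
theorem quant_addE {L n : ℕ} (hL : 1 ≤ L) (hn : 1 ≤ n) {F : ℕ → ℕ → ℝ} {C δ : ℝ}
    (h0 : ∀ i j, i ≤ j → j ≤ L ^ n → 0 ≤ F i j) (hC : F 0 (L ^ n) ≤ C * (L : ℝ) ^ n)
    (sup : ∀ i j k, i ≤ j → j ≤ k → k ≤ L ^ n → F i j + F j k ≤ F i k + δ) :
    ∃ m < n, ∃ a : ℕ, a + L * L ^ m ≤ L ^ n ∧ ∀ i j k : ℕ, i ≤ j → j ≤ k → k ≤ L →
      F (a + i * L ^ m) (a + k * L ^ m) ≤
        F (a + i * L ^ m) (a + j * L ^ m) + F (a + j * L ^ m) (a + k * L ^ m) +
        (C / n * (L : ℝ) ^ (m + 1) + (L + 2) * δ) := by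
  have hL0 : (0 : ℝ) < L := by exact_mod_cast hL
  have hn0 : (0 : ℝ) < n := by exact_mod_cast hn
  by_contra hcon
  push Not at hcon
  -- intervals of small density at every scale
  have key : ∀ t : ℕ, t ≤ n → ∃ a : ℕ, a + L ^ (n - t) ≤ L ^ n ∧
      F a (a + L ^ (n - t)) ≤ (C - C / n * t) * (L : ℝ) ^ (n - t) ∧
      (1 ≤ t → F a (a + L ^ (n - t)) < (C - C / n * t) * (L : ℝ) ^ (n - t)) := by
    intro t
    induction t with
    | zero =>
      intro _
      refine ⟨0, by simp, ?_, fun h => absurd h (by omega)⟩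
      simpa using hC
    | succ t ih =>
      intro ht
      obtain ⟨a, ha, hF, -⟩ := ih (by omega)
      have e1 : n - t = n - (t + 1) + 1 := by omega
      have e2 : L * L ^ (n - (t + 1)) = L ^ (n - t) := by rw [e1, pow_succ]; ring
      obtain ⟨i, j, k, hij, hjk, hk, hbad⟩ := hcon (n - (t + 1)) (by omega) a (by rw [e2]; exact ha)
      obtain ⟨l, hl, hlF⟩ := bad_child h0 sup hL (a := a) (u := L ^ (n - (t + 1)))
        (by rw [e2]; exact ha) hij hjk hk hbad
      rw [e2] at hlF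
      have e3 : a + (l + 1) * L ^ (n - (t + 1)) = a + l * L ^ (n - (t + 1)) + L ^ (n - (t + 1)) := by
        ring
      rw [e3] at hlF
      have hst : F (a + l * L ^ (n - (t + 1)))
          (a + l * L ^ (n - (t + 1)) + L ^ (n - (t + 1))) <
          (C - C / n * ((t + 1 : ℕ) : ℝ)) * (L : ℝ) ^ (n - (t + 1)) := by
        have e4 : (L : ℝ) ^ (n - t) = L * (L : ℝ) ^ (n - (t + 1)) := by rw [e1, pow_succ]; ring
        have e5 : (L : ℝ) ^ (n - (t + 1) + 1) = L * (L : ℝ) ^ (n - (t + 1)) := by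
          rw [pow_succ]; ring
        rw [e4] at hF
        rw [e5] at hlF
        push_cast
        have h5 : (L : ℝ) * F (a + l * L ^ (n - (t + 1)))
            (a + l * L ^ (n - (t + 1)) + L ^ (n - (t + 1))) <
            L * ((C - C / n * (t + 1)) * (L : ℝ) ^ (n - (t + 1))) := by
          have : L * ((C - C / n * (t + 1)) * (L : ℝ) ^ (n - (t + 1))) =
            (C - C / n * t) * (L * (L : ℝ) ^ (n - (t + 1))) -
              C / n * (L * (L : ℝ) ^ (n - (t + 1))) := by ring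
          linarith
        exact lt_of_mul_lt_mul_left h5 hL0.le
      refine ⟨a + l * L ^ (n - (t + 1)), ?_, hst.le, fun _ => hst⟩
      have h6 : (l + 1) * L ^ (n - (t + 1)) ≤ L * L ^ (n - (t + 1)) :=
        Nat.mul_le_mul_right _ hl
      rw [e2] at h6
      have h7 : (l + 1) * L ^ (n - (t + 1)) = l * L ^ (n - (t + 1)) + L ^ (n - (t + 1)) := by ring
      omega
  obtain ⟨a, ha, -, h1⟩ := key n le_rfl
  have h2 := h1 hn
  have h3 : C - C / n * (n : ℝ) = 0 := by field_simp; ring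
  rw [h3, zero_mul] at h2
  exact absurd (h0 _ _ (Nat.le_add_right _ _) ha) (not_le.2 h2)

/-- **Quantitative differentiation.** -/
theorem quant_add {L n : ℕ} (hL : 1 ≤ L) (hn : 1 ≤ n) {F : ℕ → ℕ → ℝ} {C : ℝ}
    (h0 : ∀ i j, i ≤ j → j ≤ L ^ n → 0 ≤ F i j) (hC : F 0 (L ^ n) ≤ C * (L : ℝ) ^ n)
    (sup : ∀ i j k, i ≤ j → j ≤ k → k ≤ L ^ n → F i j + F j k ≤ F i k) :
    ∃ m < n, ∃ a : ℕ, a + L * L ^ m ≤ L ^ n ∧ ∀ i j k : ℕ, i ≤ j → j ≤ k → k ≤ L →
      F (a + i * L ^ m) (a + k * L ^ m) ≤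
        F (a + i * L ^ m) (a + j * L ^ m) + F (a + j * L ^ m) (a + k * L ^ m) +
        C / n * (L : ℝ) ^ (m + 1) := by
  obtain ⟨m, hm, a, ha, h⟩ := quant_addE (δ := 0) hL hn h0 hC fun i j k h1 h2 h3 => by
    rw [add_zero]
    exact sup i j k h1 h2 h3
  refine ⟨m, hm, a, ha, fun i j k h1 h2 h3 => ?_⟩
  have := h i j k h1 h2 h3
  rwa [mul_zero, add_zero] at this

end Pool.ROF
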