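import Pool.Agent.H83.REC.CNum

/-!
# Row or full

For a law, an event of positive mass and a variable `Y` in the cells of `c`: either the entropy of `Y`
on the event is nearly `X`, or the event has a part of fixed relative mass such that on all events in
the part the entropy is at most `(1 - ε) X` (`row_or_full`). Family version (`rows_or_full`): one part
for finitely many triples, on which every triple is either full on all large events or has the row on
all events.
-/

set_option autoImplicit false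

namespace Pool.ROF

open Finset Real
open Pool.Agent.H49.Ent Pool.Agent.H32.Dense Pool.STK Pool.KA Pool.K2S Pool.PB Pool.S6C Pool.REX83

variable {Ω β γ : Type} [Fintype Ω] {p : Ω → ℝ}

theorem cnt_mono' (p : Ω → ℝ) (X : Ω → β) {A B : Ω → Prop} (h : Sub B A) :
    cnt p X B ≤ cnt p X A := cnt_mono p X h

/-- Few values on an event: small entropy on all events in it. -/
theorem few_all (hp : IsLaw p) (Y : Ω → β) (c : Ω → γ) {B : Ω → Prop} {L : ℝ} (hL : 0 ≤ L)
    (h : ∀ w, (cnt p Y (fun ω => B ω ∧ c ω = w) : ℝ) ≤ Real.exp L) :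
    ∀ R : Ω → Prop, Sub R B → 0 < Pe p R → CH (Pool.Agent.H49.Ent.cond p R True) Y c ≤ L := by
  intro R hR hR0
  have h1 := CH_le_cnt hp Y c hR0 (Real.one_le_exp hL) fun w => by
    have h2 : Sub (fun ω => R ω ∧ c ω = w) (fun ω => B ω ∧ c ω = w) :=
      fun ω hω => ⟨hR ω hω.1, hω.2⟩
    exact le_trans (by exact_mod_cast cnt_mono p Y h2) (h w)
  rwa [Real.log_exp] at h1

/-- **Row or full, one triple.** -/
theorem row_or_full (hp : IsLaw p) (Y : Ω → β) (c : Ω → γ) {A : Ω → Prop} (hA : 0 < Pe p A)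
    {X ε : ℝ} (hX : 0 ≤ X) (hε : 0 < ε) (hε1 : ε ≤ 1) :
    (1 - 2 * ε) * X ≤ CH (Pool.Agent.H49.Ent.cond p A True) Y c ∨
      ∃ B : Ω → Prop, Sub B A ∧ ε * Pe p A ≤ Pe p B ∧
        ∀ R : Ω → Prop, Sub R B → 0 < Pe p R →
          CH (Pool.Agent.H49.Ent.cond p R True) Y c ≤ (1 - ε) * X := by
  by_contra hcon
  rw [not_or] at hcon
  obtain ⟨h1, h2⟩ := hcon
  rw [not_le] at h1
  have hL : 0 ≤ (1 - ε) * X := mul_nonneg (by linarith) hX
  have h3 := CH_ge_cnt hp Y c hA (κ := -Real.log ε) (Real.one_le_exp hL) (by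
    intro B hB hBm
    by_contra h4
    push Not at h4
    rw [neg_neg, Real.exp_log hε] at hBm
    exact h2 ⟨B, hB, hBm, few_all hp Y c hL h4⟩)
  rw [neg_neg, Real.exp_log hε, Real.log_exp] at h3
  nlinarith [mul_nonneg (sq_nonneg ε) hX]

/-- **Row or full, finitely many triples.** -/
theorem rows_or_full (hp : IsLaw p) {n : ℕ} {β γ : Fin n → Type} (Y : ∀ k, Ω → β k)
    (c : ∀ k, Ω → γ k) (X : Fin n → ℝ) {A : Ω → Prop} (hA : 0 < Pe p A) {ε θ : ℝ}
    (hX : ∀ k, 0 ≤ X k) (hε : 0 < ε) (hε1 : ε ≤ 1) (hθ : 0 < θ) (hθ1 : θ ≤ 1) :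
    ∃ B : Ω → Prop, Sub B A ∧ (ε * θ) ^ n * Pe p A ≤ Pe p B ∧ ∀ k,
      (∀ R : Ω → Prop, Sub R B → θ * Pe p B ≤ Pe p R →
        (1 - 2 * ε) * X k ≤ CH (Pool.Agent.H49.Ent.cond p R True) (Y k) (c k)) ∨
      (∀ R : Ω → Prop, Sub R B → 0 < Pe p R →
        CH (Pool.Agent.H49.Ent.cond p R True) (Y k) (c k) ≤ (1 - ε) * X k) := by
  classical
  have hη : 0 < ε * θ := mul_pos hε hθ
  have hη1 : ε * θ ≤ 1 := by nlinarith
  -- induction on the number of triples without the row
  have key : ∀ (j : ℕ) (A : Ω → Prop), 0 < Pe p A →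
      (univ.filter fun k : Fin n => ¬ ∀ R : Ω → Prop, Sub R A → 0 < Pe p R →
        CH (Pool.Agent.H49.Ent.cond p R True) (Y k) (c k) ≤ (1 - ε) * X k).card ≤ j →
      ∃ B : Ω → Prop, Sub B A ∧ (ε * θ) ^ j * Pe p A ≤ Pe p B ∧ ∀ k,
      (∀ R : Ω → Prop, Sub R B → θ * Pe p B ≤ Pe p R →
        (1 - 2 * ε) * X k ≤ CH (Pool.Agent.H49.Ent.cond p R True) (Y k) (c k)) ∨
      (∀ R : Ω → Prop, Sub R B → 0 < Pe p R →
        CH (Pool.Agent.H49.Ent.cond p R True) (Y k) (c k) ≤ (1 - ε) * X k) := by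
    intro j
    induction j with
    | zero =>
      intro A hA hc
      refine ⟨A, fun ω h => h, by simp, fun k => Or.inr ?_⟩
      rw [Nat.le_zero, Finset.card_eq_zero, Finset.filter_eq_empty_iff] at hc
      have := hc (mem_univ k)
      rwa [not_not] at this
    | succ j ih =>
      intro A hA hc
      by_cases hall : ∀ k,
        (∀ R : Ω → Prop, Sub R A → θ * Pe p A ≤ Pe p R →
          (1 - 2 * ε) * X k ≤ CH (Pool.Agent.H49.Ent.cond p R True) (Y k) (c k)) ∨
        (∀ R : Ω → Prop, Sub R A → 0 < Pe p R →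
          CH (Pool.Agent.H49.Ent.cond p R True) (Y k) (c k) ≤ (1 - ε) * X k)
      · refine ⟨A, fun ω h => h, ?_, hall⟩
        have := pow_le_one₀ hη.le hη1 (n := j + 1)
        nlinarith
      · push Not at hall
        obtain ⟨k, ⟨R, hRA, hRm, hRc⟩, hk⟩ := hall
        have hR0 : 0 < Pe p R := lt_of_lt_of_le (mul_pos hθ hA) hRm
        rcases row_or_full hp (Y k) (c k) hR0 (hX k) hε hε1 with h1 | ⟨B, hB, hBm, hBr⟩
        · exact absurd h1 (not_le.2 hRc)
        · have hB0 : 0 < Pe p B := lt_of_lt_of_le (mul_pos hε hR0) hBm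
          have hBA : Sub B A := fun ω h => hRA ω (hB ω h)
          have hcard : (univ.filter fun k : Fin n => ¬ ∀ R : Ω → Prop, Sub R B → 0 < Pe p R →
              CH (Pool.Agent.H49.Ent.cond p R True) (Y k) (c k) ≤ (1 - ε) * X k).card ≤ j := by
            have hss : (univ.filter fun k : Fin n => ¬ ∀ R : Ω → Prop, Sub R B → 0 < Pe p R →
              CH (Pool.Agent.H49.Ent.cond p R True) (Y k) (c k) ≤ (1 - ε) * X k) ⊂
              (univ.filter fun k : Fin n => ¬ ∀ R : Ω → Prop, Sub R A → 0 < Pe p R →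
              CH (Pool.Agent.H49.Ent.cond p R True) (Y k) (c k) ≤ (1 - ε) * X k) := by
              rw [Finset.ssubset_iff_of_subset]
              · refine ⟨k, ?_, ?_⟩
                · rw [mem_filter]
                  refine ⟨mem_univ _, fun h => ?_⟩
                  obtain ⟨R', h1, h2, h3⟩ := hk
                  exact absurd (h R' h1 h2) (not_le.2 h3)
                · rw [mem_filter, not_and, not_not]
                  exact fun _ => hBr
              · intro l hl
                rw [mem_filter] at hl ⊢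
                exact ⟨mem_univ _, fun h => hl.2 fun R' h1 h2 =>
                  h R' (fun ω hω => hBA ω (h1 ω hω)) h2⟩
            have := Finset.card_lt_card hss
            omega
          obtain ⟨C, hC, hCm, hCk⟩ := ih B hB0 hcard
          refine ⟨C, fun ω h => hBA ω (hC ω h), ?_, hCk⟩
          have h5 : (ε * θ) * Pe p A ≤ Pe p B := by nlinarith
          have h6 : 0 ≤ (ε * θ) ^ j := pow_nonneg hη.le j
          calc (ε * θ) ^ (j + 1) * Pe p A = (ε * θ) ^ j * ((ε * θ) * Pe p A) := by ring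
            _ ≤ (ε * θ) ^ j * Pe p B := mul_le_mul_of_nonneg_left h5 h6
            _ ≤ Pe p C := hCm
  refine key n A hA ?_
  refine le_trans (Finset.card_filter_le _ _) ?_
  simp

end Pool.ROF
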